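import Mathlib
import Pool.Agent.Helper259.HtExt

/-!
# The absolute logarithmic height of tuples of algebraic numbers
-/

set_option autoImplicit false

namespace Pool.Agent.V11286.AbsHeight

open NumberField Height Module IntermediateField

/-- A fixed algebraic closure of `ℚ`. -/
abbrev Qb := AlgebraicClosure ℚ

/-! ### Inequalities over a number field -/

section nf

variable {K : Type*} [Field K] [NumberField K]

lemma logHeight_le_sum {ι : Type*} [Fintype ι] (v : ι → K) :
    logHeight v ≤ ∑ k, logHeight₁ (v k) := by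
  classical
  have h1 : ∀ k, (![v k, 1] : Fin 2 → K) ≠ 0 := by
    intro k h
    have := congrFun h 1
    simp at this
  have h2 := logHeight_fun_prod_eq (K := K) (x := fun k : ι => (![v k, 1] : Fin 2 → K)) h1
  simp only [logHeight₁_eq_logHeight]
  rw [← h2]
  have h3 : v = (fun I : (a : ι) → Fin 2 => ∏ a, (![v a, 1] : Fin 2 → K) (I a)) ∘
      (fun k a => if a = k then (0 : Fin 2) else 1) := by
    funext k
    simp only [Function.comp_apply]
    rw [Finset.prod_eq_single k]
    · simp
    · intro b _ hb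
      simp [hb]
    · intro h
      exact absurd (Finset.mem_univ k) h
  conv_lhs => rw [h3]
  exact logHeight_comp_le _ _

lemma logHeight₁_le {ι : Type*} [Finite ι] (v : ι → K) (i j : ι) (hj : v j = 1) :
    logHeight₁ (v i) ≤ logHeight v := by
  rw [logHeight₁_eq_logHeight]
  have : (![v i, 1] : Fin 2 → K) = v ∘ ![i, j] := by
    funext k
    fin_cases k
    · simp
    · simp [hj]
  rw [this]
  exact logHeight_comp_le _ _

lemma powvec (r : K) (k : ℕ) : logHeight (fun i : Fin (k + 1) => r ^ (i : ℕ)) ≤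
    k * logHeight₁ r := by
  induction k with
  | zero =>
    have : (fun i : Fin (0 + 1) => r ^ (i : ℕ)) = 1 := by
      funext i; fin_cases i; simp
    rw [this]
    simp
  | succ k ih =>
    have hx : (fun i : Fin (k + 1) => r ^ (i : ℕ)) ≠ 0 := by
      intro h
      have := congrFun h 0
      simp at this
    have hy : (![r, 1] : Fin 2 → K) ≠ 0 := by
      intro h
      have := congrFun h 1
      simp at this
    have h2 := logHeight_fun_mul_eq hx hy
    have h3 : (fun i : Fin (k + 1 + 1) => r ^ (i : ℕ)) =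
        (fun a : Fin (k + 1) × Fin 2 => (fun i : Fin (k + 1) => r ^ (i : ℕ)) a.1 *
          (![r, 1] : Fin 2 → K) a.2) ∘
        (fun i : Fin (k + 1 + 1) => if h : (i : ℕ) < k + 1 then (⟨i, h⟩, 1)
          else (⟨k, Nat.lt_succ_self k⟩, 0)) := by
      funext i
      simp only [Function.comp_apply]
      by_cases h : (i : ℕ) < k + 1
      · simp [h]
      · have : (i : ℕ) = k + 1 := by omega
        simp [this, pow_succ]
    rw [h3]
    refine (logHeight_comp_le _ _).trans ?_
    rw [h2, ← logHeight₁_eq_logHeight]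
    push_cast
    linarith

/-- The height of a root of a monic polynomial. -/
lemma root_bound {m : ℕ} (a : Fin (m + 1) → K) (r : K)
    (h : r ^ (m + 1) + ∑ i, a i * r ^ (i : ℕ) = 0) :
    logHeight₁ r ≤ finrank ℚ K * Real.log (m + 1) + ∑ i, logHeight₁ (a i) := by
  classical
  set A : Fin (m + 2) × Fin (m + 1) → K := fun p =>
    if (p.1 : ℕ) < m + 1 then (if (p.1 : ℕ) = p.2 then 1 else 0) else - a p.2 with hA
  have hAx : (fun j : Fin (m + 2) => ∑ i : Fin (m + 1), A (j, i) * r ^ (i : ℕ)) =
      fun j : Fin (m + 2) => r ^ (j : ℕ) := by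
    funext j
    by_cases hj : (j : ℕ) < m + 1
    · rw [Finset.sum_eq_single ⟨j, hj⟩]
      · simp only [hA]
        rw [if_pos hj, if_pos trivial, one_mul]
      · intro b _ hb
        have : (j : ℕ) ≠ b := fun h => hb (Fin.ext h.symm)
        simp only [hA]
        rw [if_pos hj, if_neg this, zero_mul]
      · intro h
        exact absurd (Finset.mem_univ _) h
    · have hj' : (j : ℕ) = m + 1 := by omega
      have key : ∀ x, A (j, x) = - a x := by
        intro x
        simp only [hA]
        rw [if_neg hj]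
      simp only [key, neg_mul, Finset.sum_neg_distrib]
      rw [hj']
      exact (eq_neg_of_add_eq_zero_left h).symm
  have h1 := logHeight_linearMap_apply_le A (fun i : Fin (m + 1) => r ^ (i : ℕ))
  rw [hAx] at h1
  -- the height of the left-hand side is at least `(m + 1) h(r)`
  have h2 : ((m + 1 : ℕ) : ℝ) * logHeight₁ r ≤ logHeight (fun j : Fin (m + 2) => r ^ (j : ℕ)) := by
    rw [← logHeight₁_pow]
    have := logHeight₁_le (fun j : Fin (m + 2) => r ^ (j : ℕ)) ⟨m + 1, by omega⟩ 0 (by simp)
    exact this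
  have h3 := powvec r m
  have h4 : logHeight A ≤ ∑ i, logHeight₁ (a i) := by
    refine (logHeight_le_sum A).trans (le_of_eq ?_)
    rw [Fintype.sum_prod_type, Fin.sum_univ_castSucc]
    have e1 : ∀ j : Fin (m + 1), ∑ i : Fin (m + 1), logHeight₁ (A (j.castSucc, i)) = 0 := by
      intro j
      apply Finset.sum_eq_zero
      intro i _
      simp only [hA, Fin.val_castSucc]
      rw [if_pos j.2]
      split_ifs <;> simp
    rw [Finset.sum_eq_zero (fun j _ => e1 j), zero_add]
    apply Finset.sum_congr rfl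
    intro i _
    simp only [hA, Fin.val_last, lt_irrefl, if_false]
    exact logHeight₁_neg _
  have h5 : (Nat.card (Fin (m + 1)) : ℝ) = m + 1 := by simp
  rw [h5, totalWeight_eq_finrank] at h1
  push_cast at h2
  linarith

end nf

/-! ### The absolute height -/

section abs

/-- The field generated by a tuple of algebraic numbers. -/
noncomputable abbrev fld {ι : Type*} (v : ι → Qb) : IntermediateField ℚ Qb :=
  IntermediateField.adjoin ℚ (Set.range v)

lemma isIntegral_Qb (x : Qb) : IsIntegral ℚ x :=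
  (AlgebraicClosure.isAlgebraic ℚ).isAlgebraic x |>.isIntegral

instance fld_fin {ι : Type*} [Finite ι] (v : ι → Qb) : FiniteDimensional ℚ (fld v) :=
  IntermediateField.finiteDimensional_adjoin fun x _ => isIntegral_Qb x

instance fld_nf {ι : Type*} [Finite ι] (v : ι → Qb) : NumberField (fld v) where

/-- The tuple as a tuple of elements of the field it generates. -/
noncomputable def inFld {ι : Type*} (v : ι → Qb) (i : ι) : fld v :=
  ⟨v i, IntermediateField.subset_adjoin ℚ _ ⟨i, rfl⟩⟩

/-- The absolute logarithmic Weil height of a tuple of algebraic numbers: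
`(1 / [L : ℚ]) * ∑_w [L_w : ℚ_w] log max_i |v_i|_w`, where `L` is the field generated by the
coordinates of `v`. -/
noncomputable def hv {ι : Type*} [Finite ι] (v : ι → Qb) : ℝ :=
  logHeight (inFld v) / finrank ℚ (fld v)

/-- The height can be computed in any number field containing the coordinates. -/
theorem hv_eq {ι : Type*} [Finite ι] (E : IntermediateField ℚ Qb) [NumberField E] (x : ι → E) :
    hv (fun i => (x i : Qb)) = logHeight x / finrank ℚ E := by
  set v : ι → Qb := fun i => (x i : Qb) with hvdef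
  have hle : fld v ≤ E := by
    rw [IntermediateField.adjoin_le_iff]
    rintro _ ⟨i, rfl⟩
    exact (x i).2
  let _ : Algebra (fld v) E := (IntermediateField.inclusion hle).toRingHom.toAlgebra
  have : IsScalarTower ℚ (fld v) E := IsScalarTower.of_algebraMap_eq fun q => rfl
  have h1 := Pool.Agent.Helper259.HtExt.logHeight_ext (K := fld v) (L := E) (inFld v)
  have h2 : (fun i => algebraMap (fld v) E (inFld v i)) = x := by
    funext i
    rfl
  rw [h2] at h1
  have h3 : finrank ℚ (fld v) * finrank (fld v) E = finrank ℚ E := finrank_mul_finrank _ _ _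
  have h4 : 0 < finrank (fld v) E := by
    have : FiniteDimensional (fld v) E := FiniteDimensional.right ℚ (fld v) E
    exact finrank_pos
  have h5 : 0 < finrank ℚ (fld v) := finrank_pos
  unfold hv
  rw [h1, ← h3]
  push_cast
  field_simp

/-- Finitely many algebraic numbers lie in a common number field. -/
lemma exists_lift {ι : Type*} [Finite ι] (v : ι → Qb) :
    ∃ (E : IntermediateField ℚ Qb) (_ : NumberField E) (x : ι → E), v = fun i => (x i : Qb) :=
  ⟨fld v, fld_nf v, inFld v, rfl⟩

/-- The absolute height of an algebraic number. -/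
noncomputable def h1 (a : Qb) : ℝ := hv ![a, 1]

lemma h1_eq (E : IntermediateField ℚ Qb) [NumberField E] (x : E) :
    h1 (x : Qb) = logHeight₁ x / finrank ℚ E := by
  unfold h1
  have : (![(x : Qb), 1] : Fin 2 → Qb) = fun i => (((![x, 1] : Fin 2 → E) i : E) : Qb) := by
    funext i
    fin_cases i <;> simp
  rw [this, hv_eq, logHeight₁_eq_logHeight]

lemma hv_nonneg {ι : Type*} [Finite ι] (v : ι → Qb) : 0 ≤ hv v :=
  div_nonneg (logHeight_nonneg _) (Nat.cast_nonneg _)

lemma h1_nonneg (a : Qb) : 0 ≤ h1 a := hv_nonneg _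

lemma finrank_pos' (E : IntermediateField ℚ Qb) [NumberField E] : (0 : ℝ) < finrank ℚ E := by
  exact_mod_cast finrank_pos

lemma h1_zero : h1 0 = 0 := by
  obtain ⟨E, _, x, hx⟩ := exists_lift ![(0 : Qb)]
  have h0 : (0 : Qb) = x 0 := congrFun hx 0
  have h2 : x 0 = 0 := Subtype.ext h0.symm
  rw [h0, h1_eq, h2, logHeight₁_zero, zero_div]

lemma h1_one : h1 1 = 0 := by
  obtain ⟨E, _, x, hx⟩ := exists_lift ![(1 : Qb)]
  have h0 : (1 : Qb) = x 0 := congrFun hx 0
  have h2 : x 0 = 1 := Subtype.ext h0.symm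
  rw [h0, h1_eq, h2, logHeight₁_one, zero_div]

lemma hv_smul {ι : Type*} [Finite ι] (c : Qb) (hc : c ≠ 0) (v : ι → Qb) :
    hv (fun i => c * v i) = hv v := by
  obtain ⟨E, _, x, hx⟩ := exists_lift (fun o : Option ι => o.elim c v)
  have h0 : c = x none := congrFun hx none
  have h2 : v = fun i => (x (some i) : Qb) := by
    funext i; exact congrFun hx (some i)
  have h3 : (fun i => c * v i) = fun i => ((x none * x (some i) : E) : Qb) := by
    funext i
    rw [h2, h0]
    simp
  have hx0 : x none ≠ 0 := by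
    rintro h
    apply hc
    rw [h0, h]
    simp
  rw [h3, hv_eq E (fun i => x none * x (some i)), h2, hv_eq E (fun i => x (some i))]
  congr 1
  exact logHeight_smul_eq_logHeight (fun i => x (some i)) hx0

lemma h1_add (a b : Qb) : h1 (a + b) ≤ h1 a + h1 b + Real.log 2 := by
  obtain ⟨E, _, x, hx⟩ := exists_lift ![a, b]
  have ha : a = x 0 := congrFun hx 0
  have hb : b = x 1 := congrFun hx 1
  have : a + b = ((x 0 + x 1 : E) : Qb) := by rw [ha, hb]; simp
  rw [this, h1_eq, ha, hb, h1_eq, h1_eq, ← sub_nonneg]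
  have hp := finrank_pos' E
  have h2 := logHeight₁_add_le (x 0) (x 1)
  rw [totalWeight_eq_finrank] at h2
  have e : logHeight₁ (x 0) / (finrank ℚ E : ℝ) + logHeight₁ (x 1) / (finrank ℚ E : ℝ) +
      Real.log 2 - logHeight₁ (x 0 + x 1) / (finrank ℚ E : ℝ) =
      (finrank ℚ E * Real.log 2 + logHeight₁ (x 0) + logHeight₁ (x 1) -
        logHeight₁ (x 0 + x 1)) / finrank ℚ E := by
    field_simp; ring
  rw [e]
  exact div_nonneg (by linarith) hp.le

lemma h1_mul (a b : Qb) : h1 (a * b) ≤ h1 a + h1 b := by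
  obtain ⟨E, _, x, hx⟩ := exists_lift ![a, b]
  have ha : a = x 0 := congrFun hx 0
  have hb : b = x 1 := congrFun hx 1
  have : a * b = ((x 0 * x 1 : E) : Qb) := by rw [ha, hb]; simp
  rw [this, h1_eq, ha, hb, h1_eq, h1_eq, ← add_div]
  exact div_le_div_of_nonneg_right (logHeight₁_mul_le _ _) (finrank_pos' E).le

lemma h1_inv (a : Qb) : h1 a⁻¹ = h1 a := by
  obtain ⟨E, _, x, hx⟩ := exists_lift ![a]
  have ha : a = x 0 := congrFun hx 0
  have : a⁻¹ = (((x 0)⁻¹ : E) : Qb) := by rw [ha]; simp
  rw [this, h1_eq, ha, h1_eq, logHeight₁_inv]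

lemma h1_neg (a : Qb) : h1 (-a) = h1 a := by
  obtain ⟨E, _, x, hx⟩ := exists_lift ![a]
  have ha : a = x 0 := congrFun hx 0
  have : -a = ((-(x 0) : E) : Qb) := by rw [ha]; simp
  rw [this, h1_eq, ha, h1_eq, logHeight₁_neg]

lemma hv_le_sum {ι : Type*} [Fintype ι] (v : ι → Qb) : hv v ≤ ∑ i, h1 (v i) := by
  obtain ⟨E, _, x, rfl⟩ := exists_lift v
  rw [hv_eq E x]
  simp only [h1_eq E]
  rw [← Finset.sum_div]
  exact div_le_div_of_nonneg_right (logHeight_le_sum x) (finrank_pos' E).le

lemma h1_le_hv {ι : Type*} [Finite ι] (v : ι → Qb) (i j : ι) (hj : v j = 1) :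
    h1 (v i) ≤ hv v := by
  obtain ⟨E, _, x, rfl⟩ := exists_lift v
  rw [hv_eq E x, h1_eq]
  have : x j = 1 := Subtype.ext hj
  exact div_le_div_of_nonneg_right (logHeight₁_le x i j this) (finrank_pos' E).le

lemma h1_root {m : ℕ} (a : Fin (m + 1) → Qb) (r : Qb)
    (h : r ^ (m + 1) + ∑ i, a i * r ^ (i : ℕ) = 0) :
    h1 r ≤ Real.log (m + 1) + ∑ i, h1 (a i) := by
  obtain ⟨E, _, x, hx⟩ := exists_lift (fun o : Option (Fin (m + 1)) => o.elim r a)
  have h0 : r = x none := congrFun hx none
  have h2 : a = fun i => (x (some i) : Qb) := by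
    funext i; exact congrFun hx (some i)
  have h3 : x none ^ (m + 1) + ∑ i : Fin (m + 1), x (some i) * x none ^ (i : ℕ) = 0 := by
    rw [h0, h2] at h
    apply Subtype.ext
    push_cast
    exact h
  have h4 := root_bound (fun i => x (some i)) (x none) h3
  rw [h0, h2]
  simp only [h1_eq E]
  rw [← Finset.sum_div, div_le_iff₀ (finrank_pos' E), add_mul, div_mul_cancel₀ _ (finrank_pos' E).ne']
  linarith

/-- Polynomial maps change heights at most linearly. -/
lemma h1_eval {σ : Type*} [Fintype σ] (p : MvPolynomial σ Qb) :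
    ∃ C : ℝ, 0 ≤ C ∧ ∀ v : σ → Qb, h1 (MvPolynomial.eval v p) ≤ C * (1 + ∑ i, h1 (v i)) := by
  have hs : ∀ v : σ → Qb, 0 ≤ ∑ i, h1 (v i) := fun v => Finset.sum_nonneg fun i _ => h1_nonneg _
  induction p using MvPolynomial.induction_on with
  | C a =>
    refine ⟨h1 a, h1_nonneg a, fun v => ?_⟩
    rw [MvPolynomial.eval_C]
    nlinarith [h1_nonneg a, hs v]
  | add p q hp hq =>
    obtain ⟨C, hC, h⟩ := hp
    obtain ⟨D, hD, h'⟩ := hq
    refine ⟨C + D + Real.log 2, by have := Real.log_nonneg (by norm_num : (1 : ℝ) ≤ 2); positivity,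
      fun v => ?_⟩
    rw [map_add]
    have h2 := h1_add (MvPolynomial.eval v p) (MvPolynomial.eval v q)
    have h3 := h v
    have h4 := h' v
    have h5 := Real.log_nonneg (by norm_num : (1 : ℝ) ≤ 2)
    nlinarith [hs v]
  | mul_X p i hp =>
    obtain ⟨C, hC, h⟩ := hp
    refine ⟨C + 1, by positivity, fun v => ?_⟩
    rw [map_mul, MvPolynomial.eval_X]
    have h2 := h1_mul (MvPolynomial.eval v p) (v i)
    have h3 := h v
    have h4 : h1 (v i) ≤ ∑ i, h1 (v i) :=
      Finset.single_le_sum (f := fun i => h1 (v i)) (fun i _ => h1_nonneg _) (Finset.mem_univ i)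
    nlinarith [hs v]

end abs

end Pool.Agent.V11286.AbsHeight
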