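import Pool.Agent.V11286.AbsHeight

/-!
# The field of sequences of bounded relative height modulo an ultrafilter
-/

set_option autoImplicit false

namespace Pool.Agent.V11286.BddField

open Pool.Agent.V11286.AbsHeight Filter

/-- Sequences of algebraic numbers whose height is `O(H n)`. -/
def bdd (H : ℕ → ℝ) (hH : ∀ n, 1 ≤ H n) : Subring (ℕ → Qb) where
  carrier := {a | ∃ C : ℝ, 0 ≤ C ∧ ∀ n, h1 (a n) ≤ C * H n}
  mul_mem' := by
    rintro a b ⟨C, hC, ha⟩ ⟨D, hD, hb⟩
    refine ⟨C + D, by positivity, fun n => ?_⟩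
    have := h1_mul (a n) (b n)
    have h1 := ha n
    have h2 := hb n
    rw [Pi.mul_apply]
    linarith
  one_mem' := ⟨0, le_refl _, fun n => by simp [h1_one]⟩
  add_mem' := by
    rintro a b ⟨C, hC, ha⟩ ⟨D, hD, hb⟩
    have hl : 0 ≤ Real.log 2 := Real.log_nonneg (by norm_num)
    refine ⟨C + D + Real.log 2, by positivity, fun n => ?_⟩
    have := h1_add (a n) (b n)
    have h1 := ha n
    have h2 := hb n
    have h3 := hH n
    rw [Pi.add_apply]
    nlinarith
  zero_mem' := ⟨0, le_refl _, fun n => by simp [h1_zero]⟩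
  neg_mem' := by
    rintro a ⟨C, hC, ha⟩
    exact ⟨C, hC, fun n => by rw [Pi.neg_apply, h1_neg]; exact ha n⟩

/-- The ultrapower of the algebraic numbers. -/
abbrev UQ (U : Ultrafilter ℕ) := (U : Filter ℕ).Germ Qb

/-- The subfield of the ultrapower of classes of sequences in `bdd H`. -/
noncomputable def bfield (U : Ultrafilter ℕ) (H : ℕ → ℝ) (hH : ∀ n, 1 ≤ H n) : Subfield (UQ U) where
  toSubring := (bdd H hH).map (Germ.coeRingHom (U : Filter ℕ))
  inv_mem' := by
    rintro _ ⟨a, ⟨C, hC, ha⟩, rfl⟩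
    refine ⟨fun n => (a n)⁻¹, ⟨C, hC, fun n => by rw [h1_inv]; exact ha n⟩, ?_⟩
    rfl

lemma mem_bfield {U : Ultrafilter ℕ} {H : ℕ → ℝ} {hH : ∀ n, 1 ≤ H n} {x : UQ U} :
    x ∈ bfield U H hH ↔ ∃ a ∈ bdd H hH, Germ.coeRingHom (U : Filter ℕ) a = x := Iff.rfl

theorem bfield_algClosed (U : Ultrafilter ℕ) (H : ℕ → ℝ) (hH : ∀ n, 1 ≤ H n) :
    IsAlgClosed (bfield U H hH) := by
  apply IsAlgClosed.of_exists_root
  intro p hp hirr
  obtain ⟨m, hm⟩ : ∃ m, p.natDegree = m + 1 :=
    Nat.exists_eq_succ_of_ne_zero (Polynomial.natDegree_pos_iff_degree_pos.mpr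
      (Polynomial.degree_pos_of_irreducible hirr)).ne'
  have hrep : ∀ i : Fin (m + 1), ∃ a ∈ bdd H hH,
      Germ.coeRingHom (U : Filter ℕ) a = (p.coeff i : UQ U) := fun i => mem_bfield.mp (p.coeff i).2
  choose a ha hap using hrep
  have hroot : ∀ n : ℕ, ∃ r : Qb, r ^ (m + 1) + ∑ i, a i n * r ^ (i : ℕ) = 0 := by
    intro n
    obtain ⟨r, hr⟩ := IsAlgClosed.exists_root
      (Polynomial.X ^ (m + 1) + ∑ i : Fin (m + 1), Polynomial.C (a i n) * Polynomial.X ^ (i : ℕ) :
        Polynomial Qb) (by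
        have h1 : (∑ i : Fin (m + 1), Polynomial.C (a i n) * Polynomial.X ^ (i : ℕ) :
          Polynomial Qb).degree < (m + 1 : ℕ) := by
          refine (Polynomial.degree_sum_le _ _).trans_lt ?_
          rw [Finset.sup_lt_iff (WithBot.bot_lt_coe _)]
          intro i _
          refine (Polynomial.degree_C_mul_X_pow_le _ _).trans_lt ?_
          exact_mod_cast i.2
        rw [Polynomial.degree_add_eq_left_of_degree_lt]
        · rw [Polynomial.degree_X_pow]
          exact_mod_cast Nat.succ_ne_zero m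
        · rwa [Polynomial.degree_X_pow])
    refine ⟨r, ?_⟩
    rw [Polynomial.IsRoot.def, Polynomial.eval_add, Polynomial.eval_finsetSum] at hr
    simpa using hr
  choose r hr using hroot
  have hrb : r ∈ bdd H hH := by
    choose C hC hCa using ha
    refine ⟨Real.log (m + 1) + ∑ i, C i, ?_, fun n => ?_⟩
    · have h1 : 0 ≤ Real.log ((m : ℝ) + 1) := Real.log_nonneg (by
        have : (0 : ℝ) ≤ m := Nat.cast_nonneg m
        linarith)
      exact add_nonneg h1 (Finset.sum_nonneg fun i _ => hC i)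
    · have h1 := h1_root (fun i => a i n) (r n) (hr n)
      have h2 : ∑ i, AbsHeight.h1 (a i n) ≤ ∑ i, C i * H n :=
        Finset.sum_le_sum fun i _ => hCa i n
      have h3 : 0 ≤ Real.log ((m : ℝ) + 1) := Real.log_nonneg (by
        have : (0 : ℝ) ≤ m := Nat.cast_nonneg m
        linarith)
      have h4 := hH n
      rw [add_mul, Finset.sum_mul]
      nlinarith
  refine ⟨⟨Germ.coeRingHom (U : Filter ℕ) r, ⟨r, hrb, rfl⟩⟩, ?_⟩
  apply Subtype.ext
  rw [Polynomial.eval_eq_sum_range, hm, Finset.sum_range_succ, add_comm]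
  have hlead : p.coeff (m + 1) = 1 := by rw [← hm]; exact hp
  rw [hlead, one_mul]
  have hz : r ^ (m + 1) + ∑ i : Fin (m + 1), a i * r ^ (i : ℕ) = 0 := by
    funext n
    have := hr n
    simpa using this
  have h5 := congrArg (Germ.coeRingHom (U : Filter ℕ)) hz
  rw [map_add, map_sum, map_zero, map_pow] at h5
  simp only [map_mul, map_pow, hap] at h5
  rw [Fin.sum_univ_eq_sum_range (fun i => (p.coeff i : UQ U) *
    (Germ.coeRingHom (U : Filter ℕ) r) ^ i)] at h5
  push_cast
  exact h5

/-- A finite-variable system of polynomial equations and one inequation over an algebraically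
closed field that is solvable in an extension is solvable in the field. -/
theorem transfer {F A : Type*} [Field F] [IsAlgClosed F] [Field A] [Algebra F A]
    {σ : Type*} [Finite σ] (S : Set (MvPolynomial σ F)) (q : MvPolynomial σ F) (a : σ → A)
    (hS : ∀ p ∈ S, MvPolynomial.aeval a p = 0) (hq : MvPolynomial.aeval a q ≠ 0) :
    ∃ b : σ → F, (∀ p ∈ S, MvPolynomial.eval b p = 0) ∧ MvPolynomial.eval b q ≠ 0 := by
  by_contra hc
  push Not at hc
  have h1 : q ∈ MvPolynomial.vanishingIdeal F (MvPolynomial.zeroLocus F (Ideal.span S)) := by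
    rw [MvPolynomial.mem_vanishingIdeal_iff]
    intro b hb
    rw [MvPolynomial.mem_zeroLocus_iff] at hb
    have := hc b (fun p hp => by
      have := hb p (Ideal.subset_span hp)
      simpa [MvPolynomial.aeval_eq_eval] using this)
    simpa [MvPolynomial.aeval_eq_eval] using this
  rw [MvPolynomial.vanishingIdeal_zeroLocus_eq_radical] at h1
  obtain ⟨k, hk⟩ := h1
  have h2 : ∀ p ∈ Ideal.span S, MvPolynomial.aeval a p = 0 := by
    intro p hp
    have : Ideal.span S ≤ RingHom.ker (MvPolynomial.aeval a : MvPolynomial σ F →ₐ[F] A) := by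
      rw [Ideal.span_le]
      intro p hp
      exact hS p hp
    exact this hp
  have h3 := h2 _ hk
  rw [map_pow] at h3
  exact hq (eq_zero_of_pow_eq_zero h3)

end Pool.Agent.V11286.BddField
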