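import Pool.Agent.V11286.BddField

/-!
# Points of small height in the fibres of a regular map
-/

set_option autoImplicit false

namespace Pool.Agent.V11286.MinHeight

open Pool.Agent.V11286.AbsHeight Pool.Agent.V11286.BddField Filter

/-- Projective `n`-space over the algebraic numbers. -/
abbrev PP (n : ℕ) := Projectivization Qb (Fin (n + 1) → Qb)

/-- The absolute logarithmic Weil height of a point of projective space. -/
noncomputable def ht {n : ℕ} (P : PP n) : ℝ := hv P.rep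

/-- `X` is a quasi-projective algebraic set: the set of points of `P^n` at which finitely many
homogeneous polynomials `p ∈ S` vanish and not all of finitely many homogeneous polynomials
`q ∈ T` vanish. -/
def IsQuasiProj {n : ℕ} (X : Set (PP n)) : Prop :=
  ∃ S T : Finset (MvPolynomial (Fin (n + 1)) Qb),
    (∀ p ∈ S, ∃ d, p.IsHomogeneous d) ∧ (∀ p ∈ T, ∃ d, p.IsHomogeneous d) ∧
    ∀ P : PP n, P ∈ X ↔
      (∀ p ∈ S, MvPolynomial.eval P.rep p = 0) ∧ ∃ q ∈ T, MvPolynomial.eval P.rep q ≠ 0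

/-- `g`, `F` form a chart for `π` on `X`: where `g ≠ 0` on `X`, the map `π` is given by the
homogeneous polynomials `F_0, …, F_m` of the same degree, without common zero. -/
def IsChart {n m : ℕ} (X : Set (PP n)) (π : PP n → PP m) (g : MvPolynomial (Fin (n + 1)) Qb)
    (F : Fin (m + 1) → MvPolynomial (Fin (n + 1)) Qb) : Prop :=
  (∃ e, g.IsHomogeneous e) ∧ (∃ d, ∀ j, (F j).IsHomogeneous d) ∧
    ∀ Q ∈ X, MvPolynomial.eval Q.rep g ≠ 0 →
      ∃ h : (fun j => MvPolynomial.eval Q.rep (F j)) ≠ 0, π Q = Projectivization.mk Qb _ h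

/-- `π` is a regular map (morphism) on `X`: every point of `X` has a neighbourhood
`{g ≠ 0} ∩ X` on which `π` is given by homogeneous polynomials of the same degree without
common zero. -/
def IsRegularOn {n m : ℕ} (X : Set (PP n)) (π : PP n → PP m) : Prop :=
  ∀ P ∈ X, ∃ (g : MvPolynomial (Fin (n + 1)) Qb)
    (F : Fin (m + 1) → MvPolynomial (Fin (n + 1)) Qb),
    MvPolynomial.eval P.rep g ≠ 0 ∧ IsChart X π g F

/-! ### Representatives -/

lemma eval_smul {n d : ℕ} {p : MvPolynomial (Fin (n + 1)) Qb} (hp : p.IsHomogeneous d) (c : Qb)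
    (v : Fin (n + 1) → Qb) :
    MvPolynomial.eval (fun i => c * v i) p = c ^ d * MvPolynomial.eval v p := by
  rw [MvPolynomial.eval_eq', MvPolynomial.eval_eq', Finset.mul_sum]
  apply Finset.sum_congr rfl
  intro m hm
  have h1 := hp (MvPolynomial.mem_support_iff.mp hm)
  have h2 : ∑ i, m i = d := by
    have h3 : Finsupp.degree m = Finsupp.weight (1 : Fin (n + 1) → ℕ) m :=
      DFunLike.congr_fun Finsupp.degree_eq_weight_one m
    rw [← Finsupp.degree_eq_sum, h3]
    exact h1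
  simp only [mul_pow]
  rw [Finset.prod_mul_distrib, Finset.prod_pow_eq_pow_sum, h2]
  ring

lemma rep_mk {n : ℕ} (v : Fin (n + 1) → Qb) (hv : v ≠ 0) :
    ∃ c : Qb, c ≠ 0 ∧ (Projectivization.mk Qb v hv).rep = fun i => c * v i := by
  obtain ⟨a, ha⟩ := Projectivization.exists_smul_eq_mk_rep Qb v hv
  refine ⟨a, a.ne_zero, ?_⟩
  rw [← ha]
  rfl

lemma ht_mk {n : ℕ} (v : Fin (n + 1) → Qb) (h : v ≠ 0) :
    ht (Projectivization.mk Qb v h) = hv v := by
  obtain ⟨c, hc, he⟩ := rep_mk v h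
  unfold ht
  rw [he]
  exact hv_smul c hc v

/-- Every point has a representative with some coordinate equal to `1`. -/
lemma exists_normal {n : ℕ} (P : PP n) : ∃ (w : Fin (n + 1) → Qb) (h : w ≠ 0) (j : Fin (n + 1)),
    w j = 1 ∧ P = Projectivization.mk Qb w h := by
  obtain ⟨j, hj⟩ := Function.ne_iff.mp P.rep_nonzero
  have hj' : P.rep j ≠ 0 := hj
  have hw : (fun i => (P.rep j)⁻¹ * P.rep i) ≠ 0 := by
    intro h
    have := congrFun h j
    simp only [Pi.zero_apply] at this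
    rw [inv_mul_cancel₀ hj'] at this
    exact one_ne_zero this
  refine ⟨_, hw, j, inv_mul_cancel₀ hj', ?_⟩
  conv_lhs => rw [← P.mk_rep]
  rw [Projectivization.mk_eq_mk_iff']
  refine ⟨P.rep j, ?_⟩
  funext i
  simp only [Pi.smul_apply, smul_eq_mul]
  rw [← mul_assoc, mul_inv_cancel₀ hj', one_mul]

/-! ### Finitely many charts -/

lemma finite_charts {n m : ℕ} {X : Set (PP n)} {π : PP n → PP m} (hπ : IsRegularOn X π) :
    ∃ 𝒢 : Finset (MvPolynomial (Fin (n + 1)) Qb), (∀ g ∈ 𝒢, ∃ F, IsChart X π g F) ∧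
      ∀ P ∈ X, ∃ g ∈ 𝒢, MvPolynomial.eval P.rep g ≠ 0 := by
  set 𝒜 : Set (MvPolynomial (Fin (n + 1)) Qb) := {g | ∃ F, IsChart X π g F} with h𝒜
  have hfg : (Submodule.span (MvPolynomial (Fin (n + 1)) Qb) 𝒜).FG := IsNoetherian.noetherian _
  obtain ⟨𝒢, h1, h2⟩ := (Submodule.fg_span_iff_fg_span_finset_subset 𝒜).mp hfg
  refine ⟨𝒢, fun g hg => h1 hg, fun P hP => ?_⟩
  by_contra hc
  push Not at hc
  obtain ⟨g, F, hg, hch⟩ := hπ P hP
  have hmem : g ∈ Ideal.span (𝒢 : Set (MvPolynomial (Fin (n + 1)) Qb)) := by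
    have : g ∈ Submodule.span (MvPolynomial (Fin (n + 1)) Qb) 𝒜 :=
      Submodule.subset_span ⟨F, hch⟩
    rw [h2] at this
    exact this
  have hle : Ideal.span (𝒢 : Set (MvPolynomial (Fin (n + 1)) Qb)) ≤
      RingHom.ker (MvPolynomial.eval P.rep) := by
    rw [Ideal.span_le]
    intro g hg
    exact hc g hg
  exact hg (hle hmem)

/-! ### The easy inequality -/

lemma chart_bound {n m : ℕ} {X : Set (PP n)} {π : PP n → PP m}
    {g : MvPolynomial (Fin (n + 1)) Qb} (h : ∃ F, IsChart X π g F) :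
    ∃ C : ℝ, 0 ≤ C ∧ ∀ P ∈ X, MvPolynomial.eval P.rep g ≠ 0 → ht (π P) ≤ C * (ht P + 1) := by
  obtain ⟨F, _, ⟨d, hd⟩, hF⟩ := h
  choose C hC hCF using fun j => h1_eval (F j)
  refine ⟨(∑ j, C j) * (n + 1), by
    have := Finset.sum_nonneg fun j (_ : j ∈ Finset.univ) => hC j
    positivity, fun P hP hg => ?_⟩
  obtain ⟨hne, he⟩ := hF P hP hg
  obtain ⟨w, hw, j, hj, hPw⟩ := exists_normal P
  obtain ⟨c, hc, hrep⟩ := rep_mk w hw
  rw [← hPw] at hrep
  have hvP : ht P = hv w := by rw [hPw, ht_mk]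
  have hev : (fun j => MvPolynomial.eval P.rep (F j)) =
      fun j => c ^ d * MvPolynomial.eval w (F j) := by
    funext j
    rw [hrep, eval_smul (hd j)]
  rw [he, ht_mk, hev, hv_smul _ (pow_ne_zero d hc)]
  refine (hv_le_sum _).trans ?_
  have hs : ∑ i, h1 (w i) ≤ (n + 1) * ht P := by
    calc ∑ i, h1 (w i) ≤ ∑ i : Fin (n + 1), ht P := by
          apply Finset.sum_le_sum
          intro i _
          rw [hvP]
          exact h1_le_hv w i j hj
      _ = (n + 1) * ht P := by simp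
  calc ∑ j, h1 (MvPolynomial.eval w (F j)) ≤ ∑ j, C j * (1 + ∑ i, h1 (w i)) :=
        Finset.sum_le_sum fun j _ => hCF j w
    _ = (∑ j, C j) * (1 + ∑ i, h1 (w i)) := by rw [Finset.sum_mul]
    _ ≤ (∑ j, C j) * ((n + 1) * (ht P + 1)) := by
        apply mul_le_mul_of_nonneg_left _ (Finset.sum_nonneg fun j _ => hC j)
        have : (0 : ℝ) ≤ n := Nat.cast_nonneg n
        linarith
    _ = _ := by ring

theorem easy {n m : ℕ} {X : Set (PP n)} {π : PP n → PP m} (hπ : IsRegularOn X π) :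
    ∃ C : ℝ, 0 < C ∧ ∀ P ∈ X, ht (π P) ≤ C * (ht P + 1) := by
  obtain ⟨𝒢, h1, h2⟩ := finite_charts hπ
  choose! C hC hCF using fun g (hg : g ∈ 𝒢) => chart_bound (h1 g hg)
  refine ⟨∑ g ∈ 𝒢, C g + 1, by
    have := Finset.sum_nonneg fun g (hg : g ∈ 𝒢) => hC g hg
    linarith, fun P hP => ?_⟩
  obtain ⟨g, hg, hgP⟩ := h2 P hP
  have h3 : C g ≤ ∑ g ∈ 𝒢, C g := Finset.single_le_sum (fun g hg => hC g hg) hg
  have h4 : 0 ≤ ht P := hv_nonneg _
  calc ht (π P) ≤ C g * (ht P + 1) := hCF g hg P hP hgP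
    _ ≤ (∑ g ∈ 𝒢, C g + 1) * (ht P + 1) := by
        apply mul_le_mul_of_nonneg_right _ (by linarith)
        linarith

/-! ### The hard inequality -/

section hard

variable {U : Ultrafilter ℕ} {H : ℕ → ℝ} {hH : ∀ n, 1 ≤ H n}

/-- Constant sequences. -/
noncomputable def cst (U : Ultrafilter ℕ) (H : ℕ → ℝ) (hH : ∀ n, 1 ≤ H n) :
    Qb →+* bfield U H hH :=
  ((Germ.coeRingHom (U : Filter ℕ)).comp (Pi.constRingHom ℕ Qb)).codRestrict (bfield U H hH)
    (fun c => ⟨fun _ => c, ⟨h1 c, h1_nonneg c, fun n => by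
      have := hH n
      have h := h1_nonneg c
      nlinarith⟩, rfl⟩)

lemma cst_coe (c : Qb) : ((cst U H hH c : bfield U H hH) : UQ U) =
    Germ.coeRingHom (U : Filter ℕ) (fun _ => c) := rfl

/-- Evaluation at a germ. -/
lemma eval_germ {σ : Type*} (p : MvPolynomial σ Qb) (v : ℕ → σ → Qb) :
    MvPolynomial.aeval (R := bfield U H hH)
      (fun k => Germ.coeRingHom (U : Filter ℕ) (fun n => v n k))
      (MvPolynomial.map (cst U H hH) p) =
    Germ.coeRingHom (U : Filter ℕ) (fun n => MvPolynomial.eval (v n) p) := by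
  induction p using MvPolynomial.induction_on with
  | C a =>
    rw [MvPolynomial.map_C, MvPolynomial.aeval_C]
    simp only [MvPolynomial.eval_C]
    rfl
  | add p q hp hq =>
    rw [map_add, map_add, hp, hq, ← map_add]
    congr 1
    funext n
    simp
  | mul_X p i hp =>
    rw [map_mul, map_mul, hp, MvPolynomial.map_X, MvPolynomial.aeval_X, ← map_mul]
    congr 1
    funext n
    simp

lemma germ_eq_zero {a : ℕ → Qb} : Germ.coeRingHom (U : Filter ℕ) a = 0 ↔ ∀ᶠ n in U, a n = 0 := by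
  change ((a : (U : Filter ℕ).Germ Qb) = ((fun _ => 0 : ℕ → Qb) : (U : Filter ℕ).Germ Qb)) ↔ _
  rw [Germ.coe_eq]
  rfl

/-- Evaluation in the field of bounded sequences. -/
lemma eval_bfield {σ : Type*} (p : MvPolynomial σ Qb) (b : σ → bfield U H hH) (v : ℕ → σ → Qb)
    (hb : ∀ k, Germ.coeRingHom (U : Filter ℕ) (fun n => v n k) = (b k : UQ U)) :
    ((MvPolynomial.eval b (MvPolynomial.map (cst U H hH) p) : bfield U H hH) : UQ U) =
    Germ.coeRingHom (U : Filter ℕ) (fun n => MvPolynomial.eval (v n) p) := by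
  rw [← eval_germ (hH := hH)]
  simp only [hb]
  rw [← MvPolynomial.aeval_eq_eval]
  have := MvPolynomial.aeval_algebraMap_apply (UQ U) b (MvPolynomial.map (cst U H hH) p)
  exact this.symm

theorem hard {n m : ℕ} {X : Set (PP n)} {π : PP n → PP m} (hX : IsQuasiProj X)
    (hπ : IsRegularOn X π) :
    ∃ C : ℝ, 0 < C ∧ ∀ P ∈ X, ∃ P' ∈ X, π P' = π P ∧ ht P' ≤ C * (ht (π P) + 1) := by
  classical
  by_contra hc
  push Not at hc
  have hc' : ∀ k : ℕ, ∃ P ∈ X, ∀ P' ∈ X, π P' = π P → ((k : ℝ) + 1) * (ht (π P) + 1) < ht P' :=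
    fun k => hc (k + 1) (by positivity)
  choose x hxX hx using hc'
  obtain ⟨S, T, hS, hT, hXST⟩ := hX
  obtain ⟨𝒢, h𝒢, hcov⟩ := finite_charts hπ
  set H : ℕ → ℝ := fun k => ht (π (x k)) + 1 with hHdef
  have hH : ∀ k, 1 ≤ H k := fun k => by
    have : 0 ≤ ht (π (x k)) := hv_nonneg _
    rw [hHdef]
    simp only
    linarith
  let U : Ultrafilter ℕ := hyperfilter ℕ
  -- normalised representatives of the image points
  choose w hw0 jw hw1 hwy using fun k => exists_normal (π (x k))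
  have hwH : ∀ a k, h1 (w k a) ≤ H k := by
    intro a k
    have h2 := h1_le_hv (w k) a (jw k) (hw1 k)
    have h3 : ht (π (x k)) = hv (w k) := by
      conv_lhs => rw [hwy k]
      exact ht_mk _ _
    rw [hHdef]
    simp only
    linarith
  -- the finite choices
  have hchoice : ∀ k, ∃ c : (T × 𝒢 × Fin (n + 1)),
      MvPolynomial.eval (x k).rep c.1.1 ≠ 0 ∧ MvPolynomial.eval (x k).rep c.2.1.1 ≠ 0 ∧
        (x k).rep c.2.2 ≠ 0 := by
    intro k
    obtain ⟨q, hq, hqx⟩ := ((hXST (x k)).mp (hxX k)).2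
    obtain ⟨g, hg, hgx⟩ := hcov (x k) (hxX k)
    obtain ⟨i, hi⟩ := Function.ne_iff.mp (x k).rep_nonzero
    exact ⟨(⟨q, hq⟩, ⟨g, hg⟩, i), hqx, hgx, hi⟩
  obtain ⟨⟨⟨q, hq⟩, ⟨g, hg⟩, i₀⟩, hev⟩ :=
    (Ultrafilter.eventually_exists_iff (f := U)).mp (Eventually.of_forall hchoice)
  simp only at hev
  obtain ⟨F, ⟨e, he⟩, ⟨d, hd⟩, hF⟩ := h𝒢 g hg
  obtain ⟨eq', heq'⟩ := hT q hq
  -- the polynomial system
  have := bfield_algClosed U H hH
  let W : Fin (m + 1) → bfield U H hH := fun a =>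
    ⟨Germ.coeRingHom (U : Filter ℕ) (fun k => w k a),
      ⟨fun k => w k a, ⟨1, zero_le_one, fun k => by rw [one_mul]; exact hwH a k⟩, rfl⟩⟩
  let Sys : Set (MvPolynomial (Fin (n + 1)) (bfield U H hH)) :=
    {p | ∃ s ∈ S, p = MvPolynomial.map (cst U H hH) s} ∪
    {p | ∃ a b : Fin (m + 1), p = MvPolynomial.map (cst U H hH) (F a) * MvPolynomial.C (W b) -
      MvPolynomial.map (cst U H hH) (F b) * MvPolynomial.C (W a)}
  let Q : MvPolynomial (Fin (n + 1)) (bfield U H hH) :=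
    MvPolynomial.map (cst U H hH) q * MvPolynomial.map (cst U H hH) g * MvPolynomial.X i₀
  let a₀ : Fin (n + 1) → UQ U := fun k => Germ.coeRingHom (U : Filter ℕ) (fun j => (x j).rep k)
  have hsys : ∀ p ∈ Sys, MvPolynomial.aeval a₀ p = 0 := by
    rintro p (⟨s, hs, rfl⟩ | ⟨a, b, rfl⟩)
    · rw [eval_germ, germ_eq_zero]
      exact Eventually.of_forall fun k => ((hXST (x k)).mp (hxX k)).1 s hs
    · rw [map_sub, map_mul, map_mul, eval_germ, eval_germ, MvPolynomial.aeval_C,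
        MvPolynomial.aeval_C]
      change Germ.coeRingHom (U : Filter ℕ) _ * Germ.coeRingHom (U : Filter ℕ) _ -
        Germ.coeRingHom (U : Filter ℕ) _ * Germ.coeRingHom (U : Filter ℕ) _ = 0
      rw [← map_mul, ← map_mul, ← map_sub, germ_eq_zero]
      refine hev.mono fun k hk => ?_
      obtain ⟨hne, heq⟩ := hF (x k) (hxX k) hk.2.1
      rw [hwy k, Projectivization.mk_eq_mk_iff'] at heq
      obtain ⟨c, hcw⟩ := heq
      have ha := congrFun hcw a
      have hb := congrFun hcw b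
      simp only [Pi.smul_apply, smul_eq_mul] at ha hb
      simp only [Pi.sub_apply, Pi.mul_apply]
      rw [← ha, ← hb]
      ring
  have hQ : MvPolynomial.aeval a₀ Q ≠ 0 := by
    rw [map_mul, map_mul, eval_germ, eval_germ, MvPolynomial.aeval_X, ← map_mul, ← map_mul,
      Ne, germ_eq_zero]
    intro h0
    obtain ⟨k, hk1, hk2⟩ := (h0.and hev).exists
    simp only [Pi.mul_apply] at hk1
    exact (mul_ne_zero (mul_ne_zero hk2.1 hk2.2.1) hk2.2.2) hk1
  obtain ⟨b, hb1, hb2⟩ := transfer Sys Q a₀ hsys hQ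
  -- representatives
  choose v hvb hvcoe using fun k => (b k).2
  set v' : ℕ → Fin (n + 1) → Qb := fun j k => v k j with hv'
  have hbv : ∀ k, Germ.coeRingHom (U : Filter ℕ) (fun j => v' j k) = (b k : UQ U) := hvcoe
  -- translate the equations
  have E1 : ∀ s ∈ S, ∀ᶠ j in U, MvPolynomial.eval (v' j) s = 0 := by
    intro s hs
    have h0 := hb1 _ (Or.inl ⟨s, hs, rfl⟩)
    rw [← germ_eq_zero, ← eval_bfield s b v' hbv, h0]
    rfl
  have E2 : ∀ a c : Fin (m + 1), ∀ᶠ j in U,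
      MvPolynomial.eval (v' j) (F a) * w j c = MvPolynomial.eval (v' j) (F c) * w j a := by
    intro a c
    have h0 := hb1 _ (Or.inr ⟨a, c, rfl⟩)
    rw [map_sub, map_mul, map_mul, MvPolynomial.eval_C, MvPolynomial.eval_C, sub_eq_zero] at h0
    have h1 := congrArg (fun z : bfield U H hH => (z : UQ U)) h0
    simp only [Subfield.coe_mul] at h1
    rw [eval_bfield (F a) b v' hbv, eval_bfield (F c) b v' hbv] at h1
    change Germ.coeRingHom (U : Filter ℕ) _ * Germ.coeRingHom (U : Filter ℕ) _ =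
      Germ.coeRingHom (U : Filter ℕ) _ * Germ.coeRingHom (U : Filter ℕ) _ at h1
    rw [← map_mul, ← map_mul, ← sub_eq_zero, ← map_sub, germ_eq_zero] at h1
    refine h1.mono fun j hj => ?_
    simp only [Pi.sub_apply, Pi.mul_apply] at hj
    exact sub_eq_zero.mp hj
  have E3 : ∀ᶠ j in U, MvPolynomial.eval (v' j) q ≠ 0 ∧ MvPolynomial.eval (v' j) g ≠ 0 ∧
      v' j i₀ ≠ 0 := by
    rw [map_mul, map_mul, MvPolynomial.eval_X] at hb2
    have h1 : ((MvPolynomial.eval b (MvPolynomial.map (cst U H hH) q) *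
      MvPolynomial.eval b (MvPolynomial.map (cst U H hH) g) * b i₀ : bfield U H hH) : UQ U) ≠ 0 := by
      intro h
      exact hb2 (Subtype.ext h)
    rw [Subfield.coe_mul, Subfield.coe_mul, eval_bfield q b v' hbv, eval_bfield g b v' hbv,
      ← hbv, ← map_mul, ← map_mul, Ne, germ_eq_zero, ← Ultrafilter.eventually_not] at h1
    refine h1.mono fun j hj => ?_
    simp only [Pi.mul_apply] at hj
    have h2 := left_ne_zero_of_mul hj
    exact ⟨left_ne_zero_of_mul h2, right_ne_zero_of_mul h2, right_ne_zero_of_mul hj⟩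
  -- heights
  choose Cv hCv0 hCv using hvb
  have E4 : ∀ᶠ j : ℕ in U, ∑ k, Cv k < (j : ℝ) + 1 := by
    have h1 : ∀ᶠ j : ℕ in cofinite, ∑ k, Cv k < (j : ℝ) + 1 := by
      rw [Nat.cofinite_eq_atTop]
      filter_upwards [eventually_ge_atTop ⌈∑ k, Cv k⌉₊] with j hj
      have h2 : (⌈∑ k, Cv k⌉₊ : ℝ) ≤ j := by exact_mod_cast hj
      have := Nat.le_ceil (∑ k, Cv k)
      linarith
    exact hyperfilter_le_cofinite h1
  obtain ⟨j, hj1, hj2, hj3, hj4⟩ := (((eventually_all_finset S).mpr E1).and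
    ((eventually_all.mpr fun a => eventually_all.mpr fun c => E2 a c).and (E3.and E4))).exists
  obtain ⟨hjq, hjg, hji⟩ := hj3
  have hv0 : v' j ≠ 0 := fun h => hji (congrFun h i₀)
  set P' : PP n := Projectivization.mk Qb (v' j) hv0 with hP'
  obtain ⟨c, hc0, hrep⟩ := rep_mk (v' j) hv0
  rw [← hP'] at hrep
  have hP'X : P' ∈ X := by
    rw [hXST]
    constructor
    · intro s hs
      obtain ⟨ds, hds⟩ := hS s hs
      rw [hrep, eval_smul hds, hj1 s hs, mul_zero]
    · exact ⟨q, hq, by rw [hrep, eval_smul heq']; exact mul_ne_zero (pow_ne_zero _ hc0) hjq⟩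
  have hgP' : MvPolynomial.eval P'.rep g ≠ 0 := by
    rw [hrep, eval_smul he]; exact mul_ne_zero (pow_ne_zero _ hc0) hjg
  obtain ⟨hne, heq⟩ := hF P' hP'X hgP'
  have hπP' : π P' = π (x j) := by
    rw [heq]
    conv_rhs => rw [hwy j]
    rw [Projectivization.mk_eq_mk_iff']
    refine ⟨MvPolynomial.eval P'.rep (F (jw j)), ?_⟩
    funext a
    simp only [Pi.smul_apply, smul_eq_mul]
    rw [hrep, eval_smul (hd _), eval_smul (hd _)]
    have h2 := hj2 a (jw j)
    rw [hw1 j, mul_one] at h2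
    rw [h2]
    ring
  have h5 := hx j P' hP'X hπP'
  have h6 : ht P' ≤ (∑ k, Cv k) * H j := by
    rw [hP', ht_mk, Finset.sum_mul]
    exact (hv_le_sum _).trans (Finset.sum_le_sum fun k _ => hCv k j)
  have h7 : (∑ k, Cv k) * H j ≤ ((j : ℝ) + 1) * H j :=
    mul_le_mul_of_nonneg_right hj4.le (by linarith [hH j])
  have h8 : ((j : ℝ) + 1) * H j < ht P' := h5
  linarith

end hard

end Pool.Agent.V11286.MinHeight
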